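import Pool.Agent.Lib.MP_162bbe_gt.Mw.Final
import Pool.Agent.Lib.MP_162bbe_gt.Mv.Defs

namespace Pool.Agent.Results.MP_162bbe_gt.MildFields

open Pool.Agent.Lib.MP_162bbe_gt.Ad Pool.Agent.Lib.MP_162bbe_gt.Mw

/-- Uniform discreteness of the torsion-free uniform arithmetic lattices whose field of definition
has no large simple step, a small normal closure or a large root discriminant, in every
semisimple group without compact factors. -/
theorem result (r m : ℕ) (g : Fin r → Type) [∀ i, LieRing (g i)] [∀ i, LieAlgebra ℂ (g i)]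
    [∀ i, Module.Finite ℂ (g i)] [∀ i, LieAlgebra.IsSimple ℂ (g i)] :
    ∃ a : ℕ, ∀ (C : ℝ) (h : ∀ i, Submodule ℝ (g i)) (G : Type) [Group G] [TopologicalSpace G]
      [IsTopologicalGroup G] (π : ∀ i, G →* Module.End ℂ (g i)), Adj h π →
      UnifDiscrete {Γ : Subgroup G | CompactSpace (G ⧸ Γ) ∧ (∀ γ ∈ Γ, IsOfFinOrder γ → γ = 1) ∧
        MildArith h π m a C Γ} := by
  obtain ⟨a, ha⟩ := Pool.Agent.Lib.MP_162bbe_gt.Mw.fin_order r m g
  refine ⟨a, fun C h G _ _ _ π hA => ?_⟩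
  obtain ⟨U, hU, h1⟩ := ha C h G π hA
  exact ⟨U, hU, fun Γ hΓ b γ hγ hb => hΓ.2.1 γ hγ (h1 Γ hΓ.1 hΓ.2.2 b γ hγ hb)⟩

/-- A solvable group has only commutative simple sections. -/
theorem sec_of_solvable (a : ℕ) (C : ℝ) (d : ℕ) (Q : Type) [Group Q] [Group.IsSolvable Q] :
    Sec a C d Q := fun _ _ _ _ _ hf =>
  Or.inl (IsSimpleGroup.comm_iff_isSolvable.2 (Group.isSolvable_of_surjective hf))

/-- The earlier form, with a solvable Galois group in the first alternative. -/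
theorem solvable_form (r m : ℕ) (g : Fin r → Type) [∀ i, LieRing (g i)] [∀ i, LieAlgebra ℂ (g i)]
    [∀ i, Module.Finite ℂ (g i)] [∀ i, LieAlgebra.IsSimple ℂ (g i)] :
    ∃ a : ℕ, ∀ (C : ℝ) (h : ∀ i, Submodule ℝ (g i)) (G : Type) [Group G] [TopologicalSpace G]
      [IsTopologicalGroup G] (π : ∀ i, G →* Module.End ℂ (g i)), Adj h π →
      UnifDiscrete {Γ : Subgroup G | CompactSpace (G ⧸ Γ) ∧ (∀ γ ∈ Γ, IsOfFinOrder γ → γ = 1) ∧
        Pool.Agent.Lib.MP_162bbe_gt.Mv.MildArith h π m a C Γ} := by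
  obtain ⟨a, ha⟩ := result r m g
  refine ⟨a, fun C h G _ _ _ π hA => ?_⟩
  obtain ⟨U, hU, h1⟩ := ha C h G π hA
  refine ⟨U, hU, fun Γ hΓ => h1 Γ ⟨hΓ.1, hΓ.2.1, ?_⟩⟩
  obtain ⟨k, L, i1, i2, i3, i4, X, hX⟩ := hΓ.2.2
  exact ⟨k, L, i1, i2, i3, i4, X, hX.imp_left fun h2 => @sec_of_solvable _ _ _ _ _ h2⟩

end Pool.Agent.Results.MP_162bbe_gt.MildFields
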