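import Pool.Agent.Lib.MP_162bbe_gt.SU.Final

set_option autoImplicit false

namespace Pool.Agent.Results.MP_162bbe_gt.SecondType

open Pool.Agent.Lib.MP_162bbe_gt.SU

/-- Uniform discreteness of the torsion-free uniform lattices that come from unitary groups of
central simple algebras of large index, in every group `G` that has a common quotient `H` with a
product of real forms of `SL(n)`. -/
theorem result (n r : ℕ) (κ : Fin r → Kind) (hκ : ∀ i, 0 < realRank n (κ i))
    (G H : Type) [Group G] [TopologicalSpace G] [Group H] [TopologicalSpace H]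
    (p : G →* H) (hp : Continuous p) (hp' : Function.Surjective p) [Finite p.ker]
    (q : (Π i, factor n (κ i)) →* H) (hq : IsOpenQuotientMap q) :
    UnifDiscrete {Γ : Subgroup G | CompactSpace (G ⧸ Γ) ∧ (∀ γ ∈ Γ, IsOfFinOrder γ → γ = 1) ∧
      ∃ d, (∀ i, Ok n d (κ i)) ∧ UnitaryType (fun i g => (g i).1.1) d ((Γ.map p).comap q)} := by
  obtain ⟨U, hU, h⟩ := fin_order n r κ hκ
  refine ⟨p ⁻¹' (q '' U), hp.continuousAt.preimage_mem_nhds ?_, ?_⟩
  · rw [map_one, ← map_one q]
    exact hq.isOpenMap.image_mem_nhds hU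
  rintro Γ ⟨_, htf, d, hd, hΓ⟩ g γ hγ ⟨u, hu, hu'⟩
  obtain ⟨s, hs⟩ := hq.surjective.hasRightInverse
  let Λ := (Γ.map p).comap q
  have hc : Continuous fun x : H => (s x : _ ⧸ Λ) := by
    rw [hq.isQuotientMap.continuous_iff]
    have h1 : (fun x : H => (s x : _ ⧸ Λ)) ∘ q = QuotientGroup.mk := funext fun a =>
      QuotientGroup.eq.2 (by
        rw [Subgroup.mem_comap, map_mul, map_inv, hs, inv_mul_cancel]
        exact one_mem _)
    rw [h1]
    exact QuotientGroup.continuous_mk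
  let Φ : G ⧸ Γ → _ ⧸ Λ := Quotient.lift (fun a => (s (p a) : _ ⧸ Λ)) fun a b hab =>
    QuotientGroup.eq.2 (by
      rw [Subgroup.mem_comap, map_mul, map_inv, hs, hs, ← map_inv, ← map_mul]
      exact Subgroup.mem_map_of_mem p (QuotientGroup.leftRel_apply.1 hab))
  have hΦ : Function.Surjective Φ := by
    rintro ⟨a⟩
    obtain ⟨b, hb⟩ := hp' (q a)
    refine ⟨(b : G ⧸ Γ), QuotientGroup.eq.2 ?_⟩
    rw [Subgroup.mem_comap, map_mul, map_inv, hs, hb, inv_mul_cancel]
    exact one_mem _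
  have h2 : q ((s (p g))⁻¹ * u * s (p g)) = p γ := by
    rw [map_mul, map_mul, map_inv, hs, hu', ← map_inv, ← map_mul, ← map_mul]
    simp [mul_assoc]
  have h3 := h Λ (hΦ.compactSpace (Continuous.quotient_lift (hc.comp hp) _)) d hd hΓ (s (p g))
    ((s (p g))⁻¹ * u * s (p g)) (by
      rw [Subgroup.mem_comap, h2]
      exact Subgroup.mem_map_of_mem p hγ) (by simpa [mul_assoc] using hu)
  obtain ⟨N, hN, h4⟩ := isOfFinOrder_iff_pow_eq_one.1 (h2 ▸ q.isOfFinOrder h3)
  refine htf γ hγ (IsOfFinOrder.of_pow (n := N) ?_ hN.ne')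
  exact p.ker.subtype.isOfFinOrder
    (isOfFinOrder_of_finite (⟨γ ^ N, by rw [MonoidHom.mem_ker, map_pow, h4]⟩ : p.ker))

end Pool.Agent.Results.MP_162bbe_gt.SecondType
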