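import Pool.Agent.Lib.MP_162bbe_gt.Ct.SpecTop

namespace Pool.Agent.Results.MP_162bbe_gt.SparseFields

open Pool.Agent.Lib.MP_162bbe_gt.Ad Pool.Agent.Lib.MP_162bbe_gt.Ct

/-- The characteristic polynomials of the short elements of infinite order of all uniform arithmetic
lattices of a semisimple group without compact factors lie in a set with
`exp (O (√(d log R) + log d))` members whose field of coefficients has degree at most `d`, and this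
field has bounded index in the field of definition of the lattice. -/
theorem result (r : ℕ) (g : Fin r → Type) [∀ i, LieRing (g i)] [∀ i, LieAlgebra ℂ (g i)]
    [∀ i, Module.Finite ℂ (g i)] [∀ i, LieAlgebra.IsSimple ℂ (g i)] :
    ∃ (a : ℕ) (C : ℝ), ∀ R : ℝ, 1 < R → ∃ 𝓟 : Set (Fin r → Polynomial ℂ),
      (∀ d : ℕ, 2 ≤ d → ∃ T : Finset (Fin r → Polynomial ℂ),
        (T.card : ℝ) ≤ Real.exp (C * R ^ a * (√(d * Real.log R) + Real.log d)) ∧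
        ∀ p ∈ 𝓟, ∀ i, Module.finrank ℚ (Cf (p i)) ≤ d → p ∈ T) ∧
      ∀ (h : ∀ i, Submodule ℝ (g i)) (G : Type) [Group G] [TopologicalSpace G]
        [IsTopologicalGroup G] (π : ∀ i, G →* Module.End ℂ (g i)), Adj h π →
        Short π R ∈ nhds (1 : G) ∧ ∀ Γ : Subgroup G, CompactSpace (G ⧸ Γ) →
          SpecIn h π R 𝓟 Γ := by
  rcases isEmpty_or_nonempty (Fin r) with hr | ⟨⟨i₀⟩⟩
  · refine ⟨0, 0, fun R hR => ⟨∅, fun d _ => ⟨∅, by simp, by simp⟩, fun h G _ _ _ π hA =>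
      ⟨short_nhds hA hR, fun Γ _ k L _ _ _ _ X b γ hγ hi _ => (hi ?_).elim⟩⟩⟩
    have : Finite G := Set.finite_univ_iff.1 (hA.fin.subset fun a _ i => hr.elim i)
    exact isOfFinOrder_of_finite γ
  obtain ⟨C, hC⟩ := spec_count r (Module.finrank ℂ (g i₀)) (2 * r * Module.finrank ℂ (g i₀))
    (2 * r * Module.finrank ℂ (g i₀) + 1) (Nat.le_add_left _ _)
  exact ⟨_, C, fun R hR => ⟨_, fun d hd => hC R d hR.le hd, fun h G _ _ _ π hA =>
    ⟨short_nhds hA hR, fun Γ _ k L _ _ _ _ X b γ hγ hi hb =>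
      ⟨_, (spec_mem i₀ hA hR X hγ hb hi).1, fun _ => rfl, (spec_mem i₀ hA hR X hγ hb hi).2⟩⟩⟩⟩

/-- The earlier form: outside a sparse set of fields the torsion-free uniform arithmetic lattices
have no short element. -/
theorem fields (r : ℕ) (g : Fin r → Type) [∀ i, LieRing (g i)] [∀ i, LieAlgebra ℂ (g i)]
    [∀ i, Module.Finite ℂ (g i)] [∀ i, LieAlgebra.IsSimple ℂ (g i)] :
    ∃ (a : ℕ) (C : ℝ), ∀ R : ℝ, 1 < R → ∃ 𝓔 : Set (IntermediateField ℚ ℂ),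
      (∀ d : ℕ, 2 ≤ d → ∃ T : Finset (IntermediateField ℚ ℂ),
        (T.card : ℝ) ≤ Real.exp (C * R ^ a * (√(d * Real.log R) + Real.log d)) ∧
        ∀ E ∈ 𝓔, Module.finrank ℚ E ≤ d → E ∈ T) ∧
      ∀ (h : ∀ i, Submodule ℝ (g i)) (G : Type) [Group G] [TopologicalSpace G]
        [IsTopologicalGroup G] (π : ∀ i, G →* Module.End ℂ (g i)), Adj h π →
        Short π R ∈ nhds (1 : G) ∧ ∀ Γ : Subgroup G, CompactSpace (G ⧸ Γ) →
          (∀ γ ∈ Γ, IsOfFinOrder γ → γ = 1) → ArithOff h π 𝓔 Γ →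
          ∀ b : G, ∀ γ ∈ Γ, b * γ * b⁻¹ ∈ Short π R → γ = 1 := by
  classical
  rcases isEmpty_or_nonempty (Fin r) with hr | ⟨⟨i₀⟩⟩
  · refine ⟨0, 0, fun R hR => ⟨∅, fun d _ => ⟨∅, by simp, by simp⟩, fun h G _ _ _ π hA =>
      ⟨short_nhds hA hR, fun Γ _ ht _ b γ hγ _ => ht γ hγ ?_⟩⟩⟩
    have : Finite G := Set.finite_univ_iff.1 (hA.fin.subset fun a _ i => hr.elim i)
    exact isOfFinOrder_of_finite γ
  obtain ⟨a, C, H⟩ := result r g
  refine ⟨a, C, fun R hR => ?_⟩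
  obtain ⟨𝓟, h1, h2⟩ := H R hR
  refine ⟨(fun p => Cf (p i₀)) '' 𝓟, fun d hd => ?_, fun h G _ _ _ π hA =>
    ⟨(h2 h G π hA).1, fun Γ hc ht hΓ b γ hγ hb => ht γ hγ (by_contra fun hi => ?_)⟩⟩
  · obtain ⟨T, hT, hT'⟩ := h1 d hd
    refine ⟨T.image fun p => Cf (p i₀), (Nat.cast_le.2 Finset.card_image_le).trans hT, ?_⟩
    rintro _ ⟨p, hp, rfl⟩ hE
    exact Finset.mem_image.2 ⟨p, hT' p hp i₀ hE, rfl⟩
  · obtain ⟨k, L, _, _, _, _, X, hX⟩ := hΓ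
    obtain ⟨p, h3, -, h4⟩ := (h2 h G π hA).2 Γ hc k L X b γ hγ hi hb
    exact (hX i₀ _ ⟨_, h3, rfl⟩ (h4 i₀).1).not_ge (h4 i₀).2

end Pool.Agent.Results.MP_162bbe_gt.SparseFields
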