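import Pool.Agent.Lib.MP_162bbe_gt.Ti.Final

set_option autoImplicit false

namespace Pool.Agent.Results.MP_162bbe_gt.TitsLattices

open Pool.Agent.Lib.MP_162bbe_gt.Ad Pool.Agent.Lib.MP_162bbe_gt.Ti

/-- Uniform discreteness of the torsion-free uniform arithmetic lattices, over any field, whose
Tits algebra is large compared with the multiplicities of the restricted weights. -/
theorem result (r n s d : ℕ) (g : Fin r → Type) [∀ i, LieRing (g i)] [∀ i, LieAlgebra ℂ (g i)]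
    [∀ i, Module.Finite ℂ (g i)] [∀ i, LieAlgebra.IsSimple ℂ (g i)] (h : ∀ i, Submodule ℝ (g i))
    (G : Type) [Group G] [TopologicalSpace G] [IsTopologicalGroup G]
    (π : ∀ i, G →* Module.End ℂ (g i)) (hA : Adj h π)
    (ν : ∀ i, Fin s → g i →ₗ[ℂ] Matrix (Fin n) (Fin n) ℂ) (hν : ∀ i, Wts (h i) (π i) (ν i) d) :
    UnifDiscrete {Γ : Subgroup G | CompactSpace (G ⧸ Γ) ∧ (∀ γ ∈ Γ, IsOfFinOrder γ → γ = 1) ∧
      TitsArith h π ν d Γ} := by
  obtain ⟨U, hU, h1⟩ := fin_order hA hν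
  exact ⟨U, hU, fun Γ hΓ b γ hγ hb => hΓ.2.1 γ hγ (h1 Γ hΓ.1 hΓ.2.2 b γ hγ hb)⟩

end Pool.Agent.Results.MP_162bbe_gt.TitsLattices
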